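import Mathlib

/-!
# Labelled flag complexes: full subcomplexes

`sub M Y` is the Coxeter matrix of the standard parabolic subgroup `W_Y`; `VanS M Y i`: the subcomplex of
the Davis complex of `M` which consists of the cells `w W_σ`, `σ ⊆ Y` (the union of the translates of the
Davis complex of `W_Y`) has zero reduced `ℓ²`-homology in degree `i`.
-/

set_option autoImplicit false

open Finset

namespace Pool.Agent.H73.LK

variable {V : Type}

/-- the submatrix of the vertices in `Y` -/
def sub (M : CoxeterMatrix V) (Y : Finset V) : CoxeterMatrix {v // v ∈ Y} where
  M := Matrix.of fun u v => M u.1 v.1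
  isSymm := by
    ext u v
    simp only [Matrix.transpose_apply, Matrix.of_apply]
    exact M.symmetric _ _
  diagonal := by
    intro v
    simp only [Matrix.of_apply]
    exact M.diagonal _
  off_diagonal := by
    intro u v huv
    simp only [Matrix.of_apply]
    exact M.off_diagonal _ _ fun h => huv (Subtype.ext h)

end Pool.Agent.H73.LK
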